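import Pool.Agent.H256R2.SC.G1
import Pool.Agent.H256R2.SC.V2

set_option autoImplicit false

/-! # Runs of integers with small prime factors: arithmetic and analysis

Adapted from `Pool.Agent.H256R2.SC.G1` (helper144) for a variable sieving limit. -/

namespace Pool.Agent.TH536.RG

open Finset Pool.Agent.H256R2.SC Pool.Agent.H256R2.SC.LG

open scoped Classical

/-- Rankin's function `log X log₂ X log₄ X / (log₃ X)²` -/
noncomputable def RR (X : ℝ) : ℝ :=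
  Real.log X * Real.log (Real.log X) * Real.log (Real.log (Real.log (Real.log X))) /
    (Real.log (Real.log (Real.log X))) ^ 2

/-- the covering theorem at `X` with `m + 1` scales -/
def CovAt (c C₀ X : ℝ) (m : ℕ) : Prop :=
    ∀ (B : Finset ℕ), (B.card : ℝ) ≤ 2 * Real.log X →
    ∀ (κ : Type) [Fintype κ] [DecidableEq κ],
    (Fintype.card κ : ℝ) ≤ c * ((m + 1 : ℕ) : ℝ) * (Real.log X / Real.log (Real.log X)) →
    ∀ (res : ℕ → κ → ℤ),
    (∀ p : ℕ, p.Prime → (Real.log X) ^ 2 < p →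
      (p : ℝ) ≤ Real.exp ((2:ℝ) ^ m * (2 * C₀ * Real.log (Real.log X))) → p ∉ B →
      ∀ k l, k ≠ l → ¬ ((p : ℤ) ∣ res p k - res p l)) →
    ∀ (𝒜 : Finset ℤ) (N Err : ℝ), X ^ (1 / 2 : ℝ) ≤ N → 0 ≤ Err → Err ≤ X ^ (1 / 10 : ℝ) →
    (∀ q : ℕ, Squarefree q → (q : ℝ) ≤ X ^ (1 / 4 : ℝ) →
      (∀ p ∈ q.primeFactors, (Real.log X) ^ 2 < p ∧ p ∉ B) →
      ∀ r : ℤ, |((𝒜.filter (fun x => (q : ℤ) ∣ x - r)).card : ℝ) - N / q| ≤ Err) →
    ∃ x ∈ 𝒜, ∀ k : κ, ∃ p : ℕ, p.Prime ∧ (Real.log X) ^ 2 < p ∧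
      (p : ℝ) ≤ Real.exp ((2:ℝ) ^ m * (2 * C₀ * Real.log (Real.log X))) ∧
      p ∉ B ∧ (p : ℤ) ∣ x - res p k

/-- the arithmetic core: a run of `L` numbers with small prime factors in `(M, M + X]` -/
theorem run_arith {c C₀ X y w : ℝ} {m L : ℕ} (hcov : CovAt c C₀ X m)
    (hzw : Real.exp ((2:ℝ) ^ m * (2 * C₀ * Real.log (Real.log X))) ≤ w) (hyw : y ≤ w) (M : ℕ)
    (hX1 : 1 ≤ X) (hy0 : 0 ≤ y)
    (hyX : y ≤ (Real.log X) ^ 2) {b : ℕ → ℕ}
    (hb : ∀ p : ℕ, p.Prime → (p : ℝ) ≤ y → 1 ≤ b p ∧ b p < p)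
    (hU : (((Finset.Icc 1 L).filter (fun k => ∀ p : ℕ, p.Prime → (p : ℝ) ≤ y →
        ¬ k ≡ b p [MOD p])).card : ℝ) ≤
          c * ((m + 1 : ℕ) : ℝ) * (Real.log X / Real.log (Real.log X)))
    (hL : (L : ℝ) ≤ (Real.log X) ^ 2)
    (hlog : 0 ≤ 2 * Real.log X)
    (hP : 4 * (primorial ⌊y⌋₊ : ℝ) ≤ X ^ (1 / 2 : ℝ)) (hX10 : 2 ≤ X ^ (1 / 10 : ℝ)) :
    ∃ x : ℕ, M < x ∧ (x : ℝ) ≤ M + X / 2 + primorial ⌊y⌋₊ ∧
      ∀ k : ℕ, 1 ≤ k → k ≤ L → ∃ p : ℕ, p.Prime ∧ (p : ℝ) ≤ w ∧ p ∣ x + k := by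
  classical
  set P : ℕ := primorial ⌊y⌋₊ with hPdef
  have hPpos : 0 < P := primorial_pos _
  have hPr : (0 : ℝ) < P := by exact_mod_cast hPpos
  obtain ⟨b0, hb0, hb0'⟩ := exists_crt ⌊y⌋₊ (fun p => p - b p)
  have hfloor : ∀ p : ℕ, p ≤ ⌊y⌋₊ ↔ (p : ℝ) ≤ y := fun p => Nat.le_floor_iff hy0
  have hdvdP : ∀ p : ℕ, p.Prime → (p : ℝ) ≤ y → p ∣ P := fun p hp hpy =>
    (hp.dvd_primorial_iff).2 ((hfloor p).2 hpy)
  have hndvdP : ∀ p : ℕ, p.Prime → (Real.log X) ^ 2 < p → ¬ p ∣ P := by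
    intro p hp hpX h
    have := (hfloor p).1 ((hp.dvd_primorial_iff).1 h)
    linarith
  have hb0b : ∀ p : ℕ, p.Prime → (p : ℝ) ≤ y → p ∣ b0 + b p := by
    intro p hp hpy
    have h1 := hb0' p hp ((hfloor p).2 hpy)
    have h2 := (hb p hp hpy).2
    have h3 : b0 + b p ≡ (p - b p) + b p [MOD p] := h1.add_right _
    rw [Nat.sub_add_cancel h2.le] at h3
    exact (Nat.modEq_zero_iff_dvd).1 (h3.trans (by simp [Nat.ModEq]))
  -- inverses
  have hinv : ∀ p : ℕ, ∃ i : ℤ, p.Prime → ¬ p ∣ P → (p : ℤ) ∣ P * i - 1 := by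
    intro p
    by_cases h : p.Prime ∧ ¬ p ∣ P
    · obtain ⟨i, hi⟩ := inv_exists h.1 h.2
      exact ⟨i, fun _ _ => hi⟩
    · exact ⟨0, fun h1 h2 => absurd ⟨h1, h2⟩ h⟩
  choose ip hip using hinv
  set U : Finset ℕ := (Finset.Icc 1 L).filter (fun k => ∀ p : ℕ, p.Prime → (p : ℝ) ≤ y →
        ¬ k ≡ b p [MOD p]) with hUdef
  set A : Finset ℤ := Ioc ⌊(M : ℝ) / P⌋ ⌊((M : ℝ) + X / 2) / P⌋ with hA
  have hlt : (M : ℝ) / P ≤ ((M : ℝ) + X / 2) / P := by
    apply div_le_div_of_nonneg_right _ hPr.le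
    linarith
  have hN : X ^ (1 / 2 : ℝ) ≤ X / (2 * P) := by
    rw [le_div_iff₀ (by positivity)]
    have h0 : 0 ≤ X ^ (1 / 2 : ℝ) := Real.rpow_nonneg (by linarith) _
    calc X ^ (1 / 2 : ℝ) * (2 * P) ≤ X ^ (1 / 2 : ℝ) * X ^ (1 / 2 : ℝ) := by
          apply mul_le_mul_of_nonneg_left _ h0
          linarith
      _ = X := by
        rw [← Real.rpow_add (by linarith)]
        norm_num
  obtain ⟨n, hnA, hn⟩ := hcov ∅ (by simpa using hlog) U (by simpa using hU)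
    (fun p k => -((b0 : ℤ) + ((k : ℕ) : ℤ)) * ip p) (by
      intro p hp hp1 _ _ k l hkl hdvd
      have h1 := hip p hp (hndvdP p hp hp1)
      have h2 : (p : ℤ) ∣ ((l : ℕ) : ℤ) - ((k : ℕ) : ℤ) := by
        have h3 : (p : ℤ) ∣ (P : ℤ) * (-((b0 : ℤ) + ((k : ℕ) : ℤ)) * ip p -
            -((b0 : ℤ) + ((l : ℕ) : ℤ)) * ip p) := hdvd.mul_left _
        have h4 : (p : ℤ) ∣ (((l : ℕ) : ℤ) - ((k : ℕ) : ℤ)) * ((P : ℤ) * ip p - 1) := h1.mul_left _
        have h5 := dvd_sub h3 h4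
        have h6 : (P : ℤ) * (-((b0 : ℤ) + ((k : ℕ) : ℤ)) * ip p -
            -((b0 : ℤ) + ((l : ℕ) : ℤ)) * ip p) -
            (((l : ℕ) : ℤ) - ((k : ℕ) : ℤ)) * ((P : ℤ) * ip p - 1) =
            ((l : ℕ) : ℤ) - ((k : ℕ) : ℤ) := by ring
        rwa [h6] at h5
      have hk := mem_Icc.1 (mem_filter.1 k.2).1
      have hl := mem_Icc.1 (mem_filter.1 l.2).1
      have hpL : L < p := by
        have : (L : ℝ) < p := lt_of_le_of_lt hL hp1
        exact_mod_cast this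
      have h7 : ((l : ℕ) : ℤ) - ((k : ℕ) : ℤ) = 0 := by
        apply Int.eq_zero_of_abs_lt_dvd h2
        rw [abs_lt]
        constructor <;> omega
      apply hkl
      apply Subtype.ext
      omega)
    A (X / (2 * P)) 2 hN (by norm_num) hX10 (by
      intro q hq hq4 _ r
      have hq0 : 0 < q := Nat.pos_of_ne_zero hq.ne_zero
      have hq1 : (1 : ℝ) ≤ q := by exact_mod_cast hq0
      have h1 := count_Ioc ⌊(M : ℝ) / P⌋ ⌊((M : ℝ) + X / 2) / P⌋ (Int.floor_le_floor hlt) q hq0 r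
      have e1 := Int.floor_le ((M : ℝ) / P)
      have e2 := Int.lt_floor_add_one ((M : ℝ) / P)
      have e3 := Int.floor_le (((M : ℝ) + X / 2) / P)
      have e4 := Int.lt_floor_add_one (((M : ℝ) + X / 2) / P)
      have e5 : ((M : ℝ) + X / 2) / P - (M : ℝ) / P = X / (2 * P) := by
        field_simp
        ring
      have h2 : |((⌊((M : ℝ) + X / 2) / P⌋ : ℝ) - ⌊(M : ℝ) / P⌋) / q - X / (2 * P) / q| ≤ 1 := by
        rw [← sub_div, abs_div, abs_of_pos (by linarith : (0 : ℝ) < q), div_le_one (by linarith)]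
        refine le_trans ?_ hq1
        rw [abs_le]
        constructor <;> linarith
      calc _ = |((((Ioc ⌊(M : ℝ) / P⌋ ⌊((M : ℝ) + X / 2) / P⌋).filter
              (fun x => (q : ℤ) ∣ x - r)).card : ℕ) : ℝ) -
              ((⌊((M : ℝ) + X / 2) / P⌋ : ℝ) - ⌊(M : ℝ) / P⌋) / q +
              (((⌊((M : ℝ) + X / 2) / P⌋ : ℝ) - ⌊(M : ℝ) / P⌋) / q - X / (2 * P) / q)| := by
            congr 1
            ring
        _ ≤ _ := abs_add_le _ _
        _ ≤ 2 := by linarith)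
  rw [hA, mem_Ioc] at hnA
  have hn1 : (M : ℝ) / P < n := by
    have := Int.lt_floor_add_one ((M : ℝ) / P)
    have h2 : (⌊(M : ℝ) / P⌋ : ℝ) + 1 ≤ n := by exact_mod_cast hnA.1
    linarith
  have hn2 : (n : ℝ) ≤ ((M : ℝ) + X / 2) / P := by
    have := Int.floor_le (((M : ℝ) + X / 2) / P)
    have h2 : (n : ℝ) ≤ (⌊((M : ℝ) + X / 2) / P⌋ : ℝ) := by exact_mod_cast hnA.2
    linarith
  have hn0 : 0 < n := by
    have : (0 : ℝ) < n := lt_of_le_of_lt (by positivity) hn1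
    exact_mod_cast this
  obtain ⟨m', rfl⟩ := Int.eq_ofNat_of_zero_le hn0.le
  have hPm1 : (M : ℝ) < P * m' := by
    have h1 : (M : ℝ) / P < ((m' : ℕ) : ℝ) := by exact_mod_cast hn1
    rw [div_lt_iff₀ hPr] at h1
    linarith
  have hPm2 : (P * m' : ℝ) ≤ M + X / 2 := by
    have h1 : ((m' : ℕ) : ℝ) ≤ ((M : ℝ) + X / 2) / P := by exact_mod_cast hn2
    rw [le_div_iff₀ hPr] at h1
    linarith
  have hxr : ((b0 + P * m' : ℕ) : ℝ) = b0 + P * m' := by push_cast; ring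
  have hb0r : (0 : ℝ) ≤ b0 := by positivity
  have hb0P : (b0 : ℝ) ≤ P := by exact_mod_cast hb0.le
  refine ⟨b0 + P * m', ?_, by rw [hxr]; linarith, ?_⟩
  · have : (M : ℝ) < ((b0 + P * m' : ℕ) : ℝ) := by rw [hxr]; linarith
    exact_mod_cast this
  intro k hk1 hkL
  by_cases hkU : k ∈ U
  · obtain ⟨p, hp, hp1, hp2, -, hp3⟩ := hn ⟨k, hkU⟩
    refine ⟨p, hp, hp2.trans hzw, ?_⟩
    have h1 := hip p hp (hndvdP p hp hp1)
    have h2 : (p : ℤ) ∣ ((b0 + P * m' + k : ℕ) : ℤ) := by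
      have h3 := hp3.mul_left (P : ℤ)
      have h4 := h1.mul_left ((b0 : ℤ) + (k : ℤ))
      have h5 := dvd_sub h3 h4
      have h6 : (P : ℤ) * ((m' : ℤ) - -((b0 : ℤ) + (k : ℤ)) * ip p) -
          ((b0 : ℤ) + (k : ℤ)) * ((P : ℤ) * ip p - 1) = ((b0 + P * m' + k : ℕ) : ℤ) := by
        push_cast
        ring
      rwa [← h6]
    exact_mod_cast h2
  · have hkU' : ¬ ∀ p : ℕ, p.Prime → (p : ℝ) ≤ y → ¬ k ≡ b p [MOD p] := fun h =>
      hkU (mem_filter.2 ⟨mem_Icc.2 ⟨hk1, hkL⟩, h⟩)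
    push Not at hkU'
    obtain ⟨p, hp, hpy, hkp⟩ := hkU'
    refine ⟨p, hp, hpy.trans hyw, ?_⟩
    have h1 : b0 + k ≡ b0 + b p [MOD p] := hkp.add_left _
    have h2 : p ∣ b0 + k := (Nat.modEq_zero_iff_dvd).1
      (h1.trans ((Nat.modEq_zero_iff_dvd).2 (hb0b p hp hpy)))
    have h3 : p ∣ P * m' := (hdvdP p hp hpy).mul_right _
    have h4 : b0 + P * m' + k = (b0 + k) + P * m' := by ring
    rw [h4]
    exact dvd_add h2 h3

/-! ## Analysis -/

/-- all inequalities needed -/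
theorem ana {c C y₀ : ℝ} (hc : 0 < c) (hC : 0 < C) : ∃ c' : ℝ, 0 < c' ∧ ∃ X₀ : ℝ, ∀ X : ℝ,
    X₀ ≤ X → ∀ D s : ℝ, 1 ≤ D → D ≤ Real.log (Real.log X) → D ≤ 2 * s →
    ∀ y F : ℝ, y = Real.log X / 10 → F = c' * (RR X * D) → ∀ L : ℕ, L = ⌊F⌋₊ →
    1 ≤ X ∧ 0 ≤ Real.log X ∧ y₀ ≤ y ∧ 0 ≤ y ∧ y ≤ L ∧ (L : ℝ) ≤ F ∧
      (L : ℝ) ≤ y * (Real.log y) ^ 2 ∧
      C * L * (Real.log (Real.log y)) ^ 2 /
        ((Real.log y) ^ 2 * Real.log (Real.log (Real.log y))) ≤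
          c * s * (Real.log X / Real.log (Real.log X)) ∧
      (L : ℝ) ≤ (Real.log X) ^ 2 ∧ y ≤ (Real.log X) ^ 2 ∧
      4 * (primorial ⌊y⌋₊ : ℝ) ≤ X ^ (1 / 2 : ℝ) ∧ 2 ≤ X ^ (1 / 10 : ℝ) ∧
      X ^ (1 / 10 : ℝ) ≤ X / 4 ∧ y ≤ X / 4 ∧ Real.sqrt X ≤ X / 4 ∧
      X / 2 + primorial ⌊y⌋₊ + F ≤ X ∧ 0 ≤ F := by
  refine ⟨c / (16 * C), by positivity, ?_⟩
  set c' : ℝ := c / (16 * C) with hc'
  have hc'0 : 0 < c' := by positivity
  obtain ⟨X₀, hX₀⟩ := ev_log (max (max 100 (40 * c')) (max (10 * y₀) ((16 / c') ^ 2)))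
  refine ⟨X₀, fun X hX D s hD1 hD2 hDs y F hy hF L hL => ?_⟩
  obtain ⟨hX1, m1, m2, m3, m4⟩ := hX₀ X hX
  set M : ℝ := max (max 100 (40 * c')) (max (10 * y₀) ((16 / c') ^ 2)) with hM
  have M1 : 100 ≤ M := (le_max_left _ _).trans (le_max_left _ _)
  have M2 : 40 * c' ≤ M := (le_max_right _ _).trans (le_max_left _ _)
  have M3 : 10 * y₀ ≤ M := (le_max_left _ _).trans (le_max_right _ _)
  have M4 : (16 / c') ^ 2 ≤ M := (le_max_right _ _).trans (le_max_right _ _)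
  set l1 := Real.log X with hl1
  set l2 := Real.log l1 with hl2
  set l3 := Real.log l2 with hl3
  set l4 := Real.log l3 with hl4
  have p1 : 0 < l1 := by linarith
  have p2 : 0 < l2 := by linarith
  have p3 : 0 < l3 := by linarith
  have p4 : 0 < l4 := by linarith
  have hlog10 := log10_lt
  have hXpos : 0 < X := by linarith
  have hXexp : X = Real.exp l1 := (Real.exp_log hXpos).symm
  -- logs of y
  have y1 : l2 / 2 ≤ Real.log y := half_log (by rw [hy]) (by linarith) p1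
  have y2 : l3 / 2 ≤ Real.log (Real.log y) := by
    apply half_log _ (by linarith) p2
    linarith
  have y3 : l4 / 2 ≤ Real.log (Real.log (Real.log y)) := by
    apply half_log _ (by linarith) p3
    linarith
  have hypos : 0 < y := by rw [hy]; positivity
  have hlogy : 0 < Real.log y := by linarith
  have hloglogy : 0 < Real.log (Real.log y) := by linarith
  have hylog : Real.log y ≤ l2 := by
    apply Real.log_le_log hypos
    rw [hy]
    linarith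
  have y2' : Real.log (Real.log y) ≤ l3 := Real.log_le_log hlogy hylog
  have hff : RR X = l1 * l2 * l4 / l3 ^ 2 := rfl
  have hD0 : 0 < D := by linarith
  have q1 : l3 ^ 2 ≤ 4 * l2 := log_sq_le (by linarith)
  have q2 : l2 ^ 2 ≤ 4 * l1 := log_sq_le (by linarith)
  have q3 : l4 ≤ l3 := by
    have := Real.log_le_sub_one_of_pos p3
    linarith
  have hF0 : 0 ≤ F := by
    rw [hF, hff]
    positivity
  have hLF : (L : ℝ) ≤ F := by
    rw [hL]
    exact Nat.floor_le hF0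
  have hFL : F - 1 ≤ L := by
    rw [hL]
    have := Nat.lt_floor_add_one F
    linarith
  -- lower bound for F
  have F1 : l1 ≤ F := by
    rw [hF, hff]
    have s0 : 0 < √l2 := Real.sqrt_pos.2 p2
    have s1 : √l2 * √l2 = l2 := Real.mul_self_sqrt p2.le
    have q5 : l3 ^ 2 ≤ 16 * √l2 := by
      have e0 : l3 = 2 * Real.log (√l2) := by
        rw [Real.log_sqrt p2.le]
        ring
      have e1 : (Real.log (√l2)) ^ 2 ≤ 4 * √l2 := by
        apply log_sq_le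
        rw [Real.one_le_sqrt]
        linarith
      rw [e0]
      nlinarith
    have s2 : 16 / c' ≤ √l2 := by
      apply Real.le_sqrt_of_sq_le
      linarith
    have s3 : 16 ≤ c' * √l2 := by
      rw [div_le_iff₀ hc'0] at s2
      linarith
    have h1 : l1 * l2 * l4 / (16 * √l2) ≤ l1 * l2 * l4 / l3 ^ 2 := by
      apply div_le_div_of_nonneg_left (by positivity) (by positivity) q5
    have h2 : l1 * l2 * l4 / (16 * √l2) = l1 * (√l2 * l4) / 16 := by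
      rw [div_eq_div_iff (by positivity) (by norm_num)]
      nth_rewrite 1 [← s1]
      ring
    have h5 : 16 * 1 ≤ (c' * √l2) * l4 := by
      apply mul_le_mul s3 (by linarith) (by norm_num) (by positivity)
    calc l1 = l1 * (16 * 1) / 16 * 1 := by ring
      _ ≤ l1 * ((c' * √l2) * l4) / 16 * D := by gcongr
      _ = c' * (l1 * (√l2 * l4) / 16 * D) := by ring
      _ ≤ c' * (l1 * l2 * l4 / l3 ^ 2 * D) := by
        rw [← h2]
        gcongr
  -- upper bound for F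
  have F2 : F ≤ l1 * l2 ^ 2 / 40 := by
    rw [hF, hff]
    have h1 : l4 / l3 ^ 2 ≤ 1 / M := by
      rw [div_le_div_iff₀ (by positivity) (by linarith)]
      nlinarith
    have h2 : c' * (1 / M) ≤ 1 / 40 := by
      rw [mul_one_div, div_le_div_iff₀ (by linarith) (by norm_num)]
      linarith
    calc c' * (l1 * l2 * l4 / l3 ^ 2 * D) = l1 * l2 * D * (c' * (l4 / l3 ^ 2)) := by ring
      _ ≤ l1 * l2 * l2 * (c' * (1 / M)) := by gcongr
      _ ≤ l1 * l2 * l2 * (1 / 40) := by gcongr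
      _ = _ := by ring
  have F3 : F ≤ l1 ^ 2 := by
    refine F2.trans ?_
    nlinarith
  -- powers of X
  have hroot : ∀ a : ℝ, X ^ a = Real.exp (l1 * a) := fun a => Real.rpow_def_of_pos hXpos a
  have hP : (primorial ⌊y⌋₊ : ℝ) ≤ Real.exp (l1 / 5) := by
    have h1 : (primorial ⌊y⌋₊ : ℝ) ≤ 4 ^ ⌊y⌋₊ := by exact_mod_cast primorial_le_four_pow _
    refine h1.trans ?_
    have h2 : (4 : ℝ) ≤ Real.exp 2 := by
      have := Real.add_one_le_exp (1 : ℝ)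
      calc (4 : ℝ) = 2 * 2 := by norm_num
        _ ≤ Real.exp 1 * Real.exp 1 := by gcongr <;> linarith
        _ = Real.exp 2 := by rw [← Real.exp_add]; norm_num
    calc (4 : ℝ) ^ ⌊y⌋₊ ≤ (Real.exp 2) ^ ⌊y⌋₊ := by gcongr
      _ = Real.exp (⌊y⌋₊ * 2) := by rw [← Real.exp_nat_mul]
      _ ≤ Real.exp (l1 / 5) := by
        apply Real.exp_le_exp.2
        have := Nat.floor_le hypos.le
        linarith
  have e2 : (4 : ℝ) ≤ Real.exp 2 := by
    have := Real.add_one_le_exp (1 : ℝ)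
    calc (4 : ℝ) = 2 * 2 := by norm_num
      _ ≤ Real.exp 1 * Real.exp 1 := by gcongr <;> linarith
      _ = Real.exp 2 := by rw [← Real.exp_add]; norm_num
  have hexp4 : ∀ a b : ℝ, a + 2 ≤ b → 4 * Real.exp a ≤ Real.exp b := by
    intro a b hab
    calc 4 * Real.exp a ≤ Real.exp 2 * Real.exp a := by gcongr
      _ = Real.exp (2 + a) := by rw [← Real.exp_add]
      _ ≤ Real.exp b := Real.exp_le_exp.2 (by linarith)
  have hquad : l1 ^ 2 ≤ X / 8 := by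
    -- log X = 4 log X^{1/4}
    have h1 : l1 / 4 ≤ Real.exp (l1 / 4) := by
      have := Real.add_one_le_exp (l1 / 4)
      linarith
    have h2 : (l1 / 4) ^ 2 ≤ Real.exp (l1 / 2) := by
      calc (l1 / 4) ^ 2 ≤ (Real.exp (l1 / 4)) ^ 2 := by gcongr
        _ = Real.exp (l1 / 2) := by
          rw [sq, ← Real.exp_add]
          congr 1
          ring
    have h3 : 128 * Real.exp (l1 / 2) ≤ X := by
      have a1 := hexp4 (l1 / 2) (l1 / 2 + 2) le_rfl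
      have a2 := hexp4 (l1 / 2 + 2) (l1 / 2 + 4) (by linarith)
      have a3 := hexp4 (l1 / 2 + 4) (l1 / 2 + 6) (by linarith)
      have a4 := hexp4 (l1 / 2 + 6) l1 (by linarith)
      rw [← hXexp] at a4
      have a5 := Real.exp_pos (l1 / 2)
      linarith
    nlinarith
  refine ⟨hX1, p1.le, ?_, hypos.le, ?_, hLF, ?_, ?_, ?_, ?_, ?_, ?_, ?_, ?_, ?_, ?_, hF0⟩
  · rw [hy]
    linarith
  · -- y ≤ L
    rw [hy]
    linarith
  · -- L ≤ y (log y)²
    refine hLF.trans (F2.trans ?_)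
    have h1 : (l2 / 2) ^ 2 ≤ (Real.log y) ^ 2 := by gcongr
    calc l1 * l2 ^ 2 / 40 = l1 / 10 * (l2 / 2) ^ 2 := by ring
      _ ≤ l1 / 10 * (Real.log y) ^ 2 := by gcongr
      _ = y * (Real.log y) ^ 2 := by rw [hy]
  · -- number of survivors
    have h1 : C * L * (Real.log (Real.log y)) ^ 2 /
        ((Real.log y) ^ 2 * Real.log (Real.log (Real.log y))) ≤
        C * F * l3 ^ 2 / ((l2 / 2) ^ 2 * (l4 / 2)) := by
      gcongr
    refine h1.trans ?_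
    rw [hF, hff]
    have h2 : C * (c' * (l1 * l2 * l4 / l3 ^ 2 * D)) * l3 ^ 2 / ((l2 / 2) ^ 2 * (l4 / 2)) =
        8 * C * c' * D * (l1 / l2) := by
      field_simp
      ring
    rw [h2, hc']
    have h3 : 8 * C * (c / (16 * C)) * D * (l1 / l2) = c * (D / 2) * (l1 / l2) := by
      field_simp
      norm_num
    rw [h3]
    have h4 : D / 2 ≤ s := by linarith
    gcongr
  · exact hLF.trans F3
  · rw [hy]
    nlinarith
  · calc 4 * (primorial ⌊y⌋₊ : ℝ) ≤ 4 * Real.exp (l1 / 5) := by gcongr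
      _ ≤ Real.exp (l1 * (1 / 2)) := hexp4 _ _ (by linarith)
      _ = X ^ (1 / 2 : ℝ) := (hroot _).symm
  · rw [hroot]
    have h1 : Real.exp 2 ≤ Real.exp (l1 * (1 / 10)) := Real.exp_le_exp.2 (by linarith)
    linarith
  · rw [hroot]
    have h1 := hexp4 (l1 * (1 / 10)) l1 (by linarith)
    rw [← hXexp] at h1
    linarith
  · rw [hy]
    nlinarith
  · have h1 : Real.sqrt X = Real.exp (l1 / 2) := by
      rw [Real.sqrt_eq_rpow, hroot]
      congr 1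
      ring
    have h2 := hexp4 (l1 / 2) l1 (by linarith)
    rw [← hXexp] at h2
    rw [h1]
    linarith
  · have h1 := hexp4 (l1 / 5) l1 (by linarith)
    rw [← hXexp] at h1
    linarith

end Pool.Agent.TH536.RG
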