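import Pool.Agent.TH536.RG.Cov
import Pool.Agent.TH536.RG.Run
import Pool.Agent.H256R2.SC.R

set_option autoImplicit false

/-! # Large gaps between integers without small prime factors: assembly -/

namespace Pool.Agent.TH536.RG

open Finset Filter Pool.Agent.H256R2.SC Pool.Agent.H256R2.SC.LG

/-- the choice of the number of scales -/
theorem exists_scale (C₀ : ℝ) (hC : 1 ≤ C₀) : ∃ X₁ : ℝ, ∀ X : ℝ, X₁ ≤ X → ∀ y : ℝ,
    (Real.log X) ^ ((2 * C₀) ^ 2) ≤ y → y ≤ X → ∃ m : ℕ,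
      (2:ℝ) ^ m * (2 * C₀ * Real.log (Real.log X)) ≤ Real.log X / (1000 * Real.log (Real.log X)) ∧
      Real.exp ((2:ℝ) ^ m * (2 * C₀ * Real.log (Real.log X))) ≤ y ∧
      1 ≤ Real.log (Real.log y / Real.log (Real.log X)) ∧
      Real.log (Real.log y / Real.log (Real.log X)) ≤ Real.log (Real.log X) ∧
      Real.log (Real.log y / Real.log (Real.log X)) ≤ 2 * ((m + 1 : ℕ) : ℝ) := by
  obtain ⟨L₀, hL₀⟩ := ev_facts C₀ 0
  refine ⟨Real.exp L₀, fun X hX y hy1 hy2 => ?_⟩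
  have hX0 : 0 < X := lt_of_lt_of_le (Real.exp_pos _) hX
  have hLL : L₀ ≤ Real.log X := by
    rw [← Real.log_exp L₀]
    exact Real.log_le_log (Real.exp_pos _) hX
  obtain ⟨f1, -, f3, -, f5, -⟩ := hL₀ _ hLL
  set L : ℝ := Real.log X with hL
  set l : ℝ := Real.log L with hl
  have hl0 : 0 < l := by linarith
  have hLpos : 0 < L := by linarith
  have hy0 : 0 < y := lt_of_lt_of_le (Real.rpow_pos_of_pos hLpos _) hy1
  have hlogy : (2 * C₀) ^ 2 * l ≤ Real.log y := by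
    have h1 := Real.log_le_log (Real.rpow_pos_of_pos hLpos _) hy1
    rwa [Real.log_rpow hLpos] at h1
  have hlogyL : Real.log y ≤ L := Real.log_le_log hy0 hy2
  have hC2 : 2 ≤ 2 * C₀ := by linarith
  have hlogy0 : 0 < Real.log y := lt_of_lt_of_le (by positivity) hlogy
  have hq : (2 * C₀) ^ 2 ≤ Real.log y / l := by rwa [le_div_iff₀ hl0]
  have hq4 : 4 ≤ Real.log y / l := by nlinarith
  have hD1 : 1 ≤ Real.log (Real.log y / l) := by
    rw [Real.le_log_iff_exp_le (by linarith)]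
    have := Real.exp_one_lt_d9
    linarith
  have hDl : Real.log (Real.log y / l) ≤ l := by
    apply Real.log_le_log (by linarith)
    rw [div_le_iff₀ hl0]
    nlinarith
  by_cases hcase : Real.log y ≤ L / (1000 * l)
  · set W : ℝ := Real.log y / (2 * C₀ * l) with hW
    have hWeq : Real.log y / l = W * (2 * C₀) := by
      rw [hW]
      field_simp
    have hW2 : 2 * C₀ ≤ W := by
      rw [hWeq] at hq
      have h0 : 0 < 2 * C₀ := by linarith
      nlinarith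
    have hfl : ⌊W⌋₊ ≠ 0 := by
      have : 1 ≤ ⌊W⌋₊ := Nat.le_floor (by push_cast; linarith)
      omega
    set m : ℕ := Nat.log 2 ⌊W⌋₊ with hm
    have hm1 : (2:ℝ) ^ m ≤ W := by
      have e1 : 2 ^ m ≤ ⌊W⌋₊ := Nat.pow_log_le_self 2 hfl
      calc (2:ℝ) ^ m ≤ (⌊W⌋₊ : ℝ) := by exact_mod_cast e1
        _ ≤ W := Nat.floor_le (by linarith)
    have hm2 : W < (2:ℝ) ^ (m + 1) := by
      have e1 : ⌊W⌋₊ < 2 ^ (m + 1) := Nat.lt_pow_succ_log_self (by norm_num) _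
      have e2 : ⌊W⌋₊ + 1 ≤ 2 ^ (m + 1) := e1
      calc W < (⌊W⌋₊ : ℝ) + 1 := Nat.lt_floor_add_one W
        _ ≤ (2:ℝ) ^ (m + 1) := by exact_mod_cast e2
    have hWl : W * (2 * C₀ * l) = Real.log y := by
      rw [hW]
      field_simp
    have h3 : (2:ℝ) ^ m * (2 * C₀ * l) ≤ Real.log y := by
      rw [← hWl]
      exact mul_le_mul_of_nonneg_right hm1 (by positivity)
    refine ⟨m, h3.trans hcase, ?_, hD1, hDl, ?_⟩
    · calc Real.exp ((2:ℝ) ^ m * (2 * C₀ * l)) ≤ Real.exp (Real.log y) := Real.exp_le_exp.2 h3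
        _ = y := Real.exp_log hy0
    · have hW0 : 0 < W := by linarith
      have e1 : Real.log (Real.log y / l) ≤ 2 * Real.log W := by
        rw [hWeq, Real.log_mul hW0.ne' (by linarith)]
        have := Real.log_le_log (by linarith : 0 < 2 * C₀) hW2
        linarith
      have e2 : Real.log W ≤ ((m + 1 : ℕ) : ℝ) * Real.log 2 := by
        rw [← Real.log_pow]
        exact Real.log_le_log hW0 hm2.le
      have e3 := Real.log_two_lt_d9
      have e4 : (0:ℝ) ≤ ((m + 1 : ℕ) : ℝ) := Nat.cast_nonneg _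
      nlinarith
  · push Not at hcase
    obtain ⟨m, hm1, -, hm3⟩ := scales C₀ L hC f1 f3 f5
    refine ⟨m, hm1, ?_, hD1, hDl, ?_⟩
    · calc Real.exp ((2:ℝ) ^ m * (2 * C₀ * l)) ≤ Real.exp (Real.log y) :=
            Real.exp_le_exp.2 (hm1.trans hcase.le)
        _ = y := Real.exp_log hy0
    · push_cast
      linarith

/-- **Large gaps between integers without small prime factors.** -/
theorem rough_gaps : ∃ A c : ℝ, 1 ≤ A ∧ 0 < c ∧ ∃ X₀ : ℝ, ∀ X : ℝ, X₀ ≤ X → ∀ y : ℝ,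
    (Real.log X) ^ A ≤ y → y ≤ X → ∀ M : ℕ, ∃ x : ℕ, M < x ∧
      (x : ℝ) + c * (RR X * Real.log (Real.log y / Real.log (Real.log X))) ≤ M + X ∧
      ∀ k : ℕ, 1 ≤ k → (k : ℝ) ≤ c * (RR X * Real.log (Real.log y / Real.log (Real.log X))) →
        ∃ p : ℕ, p.Prime ∧ (p : ℝ) ≤ y ∧ p ∣ x + k := by
  obtain ⟨c, hc, C₀, hC₀, X₁, hX₁⟩ := covering_gen
  obtain ⟨C, hC, y₀, hy₀⟩ := survivors
  obtain ⟨c', hc', X₂, hX₂⟩ := ana (y₀ := y₀) hc hC
  obtain ⟨X₃, hX₃⟩ := exists_scale C₀ hC₀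
  refine ⟨(2 * C₀) ^ 2, c', by nlinarith, hc', max (max X₁ X₂) X₃, fun X hX y hy1 hy2 M => ?_⟩
  have g1 : X₁ ≤ X := (le_max_left _ _).trans ((le_max_left _ _).trans hX)
  have g2 : X₂ ≤ X := (le_max_right _ _).trans ((le_max_left _ _).trans hX)
  have g3 : X₃ ≤ X := (le_max_right _ _).trans hX
  obtain ⟨m, hm1, hm2, hD1, hD2, hD3⟩ := hX₃ X g3 y hy1 hy2
  obtain ⟨a1, a2, a3, a4, a5, a6, a7, a8, a9, a10, a11, a12, a13, a14, a15, a16, a17⟩ :=
    hX₂ X g2 _ _ hD1 hD2 hD3 _ _ rfl rfl _ rfl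
  obtain ⟨b, hb, hU⟩ := hy₀ _ a3 _ a5 a7
  have hL1 : 1 ≤ Real.log X := by
    by_contra h
    push Not at h
    have h1 : Real.log (Real.log X) ≤ 0 := Real.log_nonpos a2 h.le
    linarith
  have hyy : Real.log X / 10 ≤ y := by
    have h1 : (Real.log X) ^ (1:ℝ) ≤ (Real.log X) ^ ((2 * C₀) ^ 2) :=
      Real.rpow_le_rpow_of_exponent_le hL1 (by nlinarith)
    rw [Real.rpow_one] at h1
    linarith
  obtain ⟨x, hx1, hx2, hx3⟩ := run_arith (c := c) (C₀ := C₀) (m := m) (hX₁ X g1 m hm1) hm2 hyy M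
    a1 a4 a10 hb (hU.trans a8) a9 (by linarith) a11 a12
  refine ⟨x, hx1, by linarith, fun k hk1 hk2 => hx3 k hk1 ?_⟩
  exact Nat.le_floor hk2

end Pool.Agent.TH536.RG
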